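import Pool.Agent.Run7.h636.LT.Iface

/-!
# Piece BT of the project LT (helper606)

A family of `t` classes of order divisible by `p` gives torsion of order at least `p ^ t`.
-/

set_option autoImplicit false

open scoped Matrix

noncomputable section

namespace Run7.h606.LT.BT

open Module Run7.h636.LT Pool.Agent.Helper993.Delta

theorem y_cyc {C : ZC} {p n t : ℕ} (B : Bock C p n t) (k : Fin t) : B.y k ᵥ* C.M = 0 := by
  have h1 : B.a k • (B.y k ᵥ* C.M) = 0 := by
    rw [← Matrix.smul_vecMul, ← B.bd k, Matrix.vecMul_vecMul, C.M_sq, Matrix.vecMul_zero]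
  exact (smul_eq_zero.1 h1).resolve_left (B.a_ne k)

theorem y_mem {C : ZC} {p n t : ℕ} (B : Bock C p n t) (k : Fin t) : B.y k ∈ C.cyc n :=
  ⟨B.y_deg k, y_cyc B k⟩

/-- the pairing of a boundary with the cocycle `φ l` -/
theorem pair_bdy {C : ZC} {p n t : ℕ} (B : Bock C p n t) (l : Fin t) (v : C.I → ℤ) (hv : v ∈ C.bdy n) :
    ∑ i, B.φ l i * ((v i : ℤ) : ZMod p) = 0 := by
  obtain ⟨u, -, rfl⟩ := hv
  have h : ∀ i, B.φ l i * (((u ᵥ* C.M) i : ℤ) : ZMod p) =
      ∑ j, ((u j : ℤ) : ZMod p) * (((C.M j i : ℤ) : ZMod p) * B.φ l i) := by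
    intro i
    rw [Matrix.vecMul, dotProduct]
    push_cast
    rw [Finset.mul_sum]
    refine Finset.sum_congr rfl fun j _ => ?_
    ring
  rw [Finset.sum_congr rfl fun i _ => h i, Finset.sum_comm]
  refine Finset.sum_eq_zero fun j _ => ?_
  rw [← Finset.mul_sum, B.φ_cyc l j, mul_zero]

theorem main : S_BT := by
  intro C p _ n t ⟨B⟩
  have hp : p.Prime := Fact.out
  set Z := C.cyc n with hZ
  set N := (C.bdy n).submoduleOf Z with hN
  have hfin : Finite (Submodule.torsion ℤ (Z ⧸ N)) := by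
    have : Module.Finite ℤ (Submodule.torsion ℤ (Z ⧸ N)) := inferInstance
    exact Module.finite_of_fg_torsion _ (Submodule.torsion_isTorsion)
  have htor : ∀ k, (Submodule.Quotient.mk (⟨B.y k, y_mem B k⟩ : Z) : Z ⧸ N) ∈ Submodule.torsion ℤ (Z ⧸ N) := by
    intro k
    rw [Submodule.mem_torsion_iff]
    refine ⟨⟨B.a k, mem_nonZeroDivisors_of_ne_zero (B.a_ne k)⟩, ?_⟩
    have h1 : (B.a k) • (Submodule.Quotient.mk (⟨B.y k, y_mem B k⟩ : Z) : Z ⧸ N) = 0 := by
      rw [← Submodule.Quotient.mk_smul, Submodule.Quotient.mk_eq_zero, hN]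
      exact ⟨B.x k, B.x_deg k, B.bd k⟩
    exact h1
  let Y : Fin t → Submodule.torsion ℤ (Z ⧸ N) := fun k =>
    ⟨Submodule.Quotient.mk (⟨B.y k, y_mem B k⟩ : Z), htor k⟩
  let f : (Fin t → Fin p) → Submodule.torsion ℤ (Z ⧸ N) := fun m => ∑ k, ((m k : ℕ) : ℤ) • Y k
  have hf : Function.Injective f := by
    intro m m' h
    have h1 : ∑ k, (((m k : ℕ) : ℤ) - ((m' k : ℕ) : ℤ)) • Y k = 0 := by
      simp only [sub_smul, Finset.sum_sub_distrib]
      exact sub_eq_zero.2 h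
    have h2 : ∑ k, (((m k : ℕ) : ℤ) - ((m' k : ℕ) : ℤ)) • B.y k ∈ C.bdy n := by
      have h3 := congrArg (Submodule.subtype _) h1
      rw [map_sum, map_zero] at h3
      have h4 : (∑ k, (((m k : ℕ) : ℤ) - ((m' k : ℕ) : ℤ)) • (⟨B.y k, y_mem B k⟩ : Z)) ∈ N := by
        rw [← Submodule.Quotient.mk_eq_zero, ← Submodule.mkQ_apply, map_sum]
        rw [← h3]
        refine Finset.sum_congr rfl fun k _ => ?_
        rw [map_smul, map_smul]
        rfl
      have h5 : ((∑ k, (((m k : ℕ) : ℤ) - ((m' k : ℕ) : ℤ)) • (⟨B.y k, y_mem B k⟩ : Z) : Z) : C.I → ℤ) ∈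
        C.bdy n := h4
      rw [Submodule.coe_sum] at h5
      exact h5
    funext l
    have h5 := pair_bdy B l _ h2
    have h6 : ∑ i, B.φ l i * (((∑ k, (((m k : ℕ) : ℤ) - ((m' k : ℕ) : ℤ)) • B.y k) i : ℤ) : ZMod p) =
        ∑ k, ((((m k : ℕ) : ℤ) - ((m' k : ℕ) : ℤ) : ℤ) : ZMod p) * (if l = k then 1 else 0) := by
      have h7 : ∀ i, B.φ l i * (((∑ k, (((m k : ℕ) : ℤ) - ((m' k : ℕ) : ℤ)) • B.y k) i : ℤ) : ZMod p) =
          ∑ k, ((((m k : ℕ) : ℤ) - ((m' k : ℕ) : ℤ) : ℤ) : ZMod p) * (B.φ l i * ((B.y k i : ℤ) : ZMod p)) := by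
        intro i
        rw [Finset.sum_apply]
        push_cast
        rw [Finset.mul_sum]
        refine Finset.sum_congr rfl fun k _ => ?_
        rw [Pi.smul_apply, smul_eq_mul]
        push_cast
        ring
      rw [Finset.sum_congr rfl fun i _ => h7 i, Finset.sum_comm]
      refine Finset.sum_congr rfl fun k _ => ?_
      rw [← Finset.mul_sum, B.φy l k]
    rw [h5] at h6
    simp only [mul_ite, mul_one, mul_zero, Finset.sum_ite_eq, Finset.mem_univ, if_true] at h6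
    have h8 : ((m l : ℕ) : ZMod p) = ((m' l : ℕ) : ZMod p) := by
      push_cast at h6
      exact (sub_eq_zero.1 h6.symm)
    rw [ZMod.natCast_eq_natCast_iff'] at h8
    rw [Nat.mod_eq_of_lt (m l).isLt, Nat.mod_eq_of_lt (m' l).isLt] at h8
    exact Fin.ext h8
  have h9 := Nat.card_le_card_of_injective f hf
  rw [Nat.card_eq_fintype_card, Fintype.card_fun, Fintype.card_fin, Fintype.card_fin] at h9
  exact h9

end Run7.h606.LT.BT
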