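import Pool.Agent.Run7.h636.LT.Iface

/-!
# Piece PAIR of the project LT (helper606)

Products of torsion classes give torsion classes in two degrees of the product complex.
-/

set_option autoImplicit false

open scoped Matrix

noncomputable section

namespace Run7.h606.LT.PAIR

open Module Run7.h636.LT Pool.Agent.Helper993.Delta

/-- the tensor product of two chains -/
def tp {C E : ZC} {R : Type} [Mul R] (x : C.I → R) (y : E.I → R) : (C.prod E).I → R := fun i => x i.1 * y i.2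

/-- the pairing of a cochain modulo `p` and an integral chain -/
def pr {I : Type} [Fintype I] {p : ℕ} (φ : I → ZMod p) (x : I → ℤ) : ZMod p := ∑ i, φ i * ((x i : ℤ) : ZMod p)

theorem pr_tp {C E : ZC} {p : ℕ} (φ : C.I → ZMod p) (ψ : E.I → ZMod p) (x : C.I → ℤ)
    (y : E.I → ℤ) : pr (tp φ ψ) (tp x y) = pr φ x * pr ψ y := by
  change ∑ i : C.I × E.I, (φ i.1 * ψ i.2) * (((x i.1 * y i.2 : ℤ)) : ZMod p) =
    (∑ i, φ i * ((x i : ℤ) : ZMod p)) * (∑ i, ψ i * ((y i : ℤ) : ZMod p))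
  rw [Finset.sum_mul_sum, Fintype.sum_prod_type]
  refine Finset.sum_congr rfl fun i _ => Finset.sum_congr rfl fun j _ => ?_
  push_cast
  ring

theorem pr_lin {I : Type} [Fintype I] {p : ℕ} (φ ψ : I → ZMod p) (c d : ZMod p) (x : I → ℤ) :
    pr (fun i => c * φ i + d * ψ i) x = c * pr φ x + d * pr ψ x := by
  unfold pr
  rw [Finset.mul_sum, Finset.mul_sum, ← Finset.sum_add_distrib]
  refine Finset.sum_congr rfl fun i _ => ?_
  ring

theorem pr_lin' {I : Type} [Fintype I] {p : ℕ} (φ : I → ZMod p) (c d : ℤ) (x y : I → ℤ) :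
    pr φ (fun i => c * x i + d * y i) = c * pr φ x + d * pr φ y := by
  unfold pr
  rw [Finset.mul_sum, Finset.mul_sum, ← Finset.sum_add_distrib]
  refine Finset.sum_congr rfl fun i _ => ?_
  push_cast
  ring

theorem pr_zero {I : Type} [Fintype I] {p : ℕ} (φ : I → ZMod p) (x : I → ℤ) (deg : I → ℕ) (a b : ℕ) (hab : a ≠ b)
    (h1 : ∀ i, deg i ≠ a → φ i = 0) (h2 : ∀ i, deg i ≠ b → x i = 0) : pr φ x = 0 := by
  refine Finset.sum_eq_zero fun i _ => ?_
  by_cases h : deg i = a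
  · rw [h2 i (by rw [h]; exact hab), Int.cast_zero, mul_zero]
  · rw [h1 i h, zero_mul]

/-- cocycles modulo `p` -/
def Coc (C : ZC) (p : ℕ) (φ : C.I → ZMod p) : Prop := ∀ i, ∑ j, ((C.M i j : ℤ) : ZMod p) * φ j = 0

theorem Coc.lin {C : ZC} {p : ℕ} {φ ψ : C.I → ZMod p} (h1 : Coc C p φ) (h2 : Coc C p ψ) (c d : ZMod p) :
    Coc C p (fun i => c * φ i + d * ψ i) := by
  intro i
  have h : ∀ j, ((C.M i j : ℤ) : ZMod p) * (c * φ j + d * ψ j) =
      c * (((C.M i j : ℤ) : ZMod p) * φ j) + d * (((C.M i j : ℤ) : ZMod p) * ψ j) := fun j => by ring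
  rw [Finset.sum_congr rfl fun j _ => h j, Finset.sum_add_distrib, ← Finset.mul_sum, ← Finset.mul_sum, h1 i, h2 i,
    mul_zero, mul_zero, add_zero]

theorem Coc.tp {C E : ZC} {p : ℕ} {φ : C.I → ZMod p} {ψ : E.I → ZMod p} (h1 : Coc C p φ) (h2 : Coc E p ψ) :
    Coc (C.prod E) p (tp φ ψ) := by
  rintro ⟨i, j⟩
  change ∑ k : C.I × E.I, (((((if j = k.2 then C.M i k.1 else 0) +
    (if i = k.1 then (-1) ^ C.deg i * E.M j k.2 else 0) : ℤ)) : ℤ) : ZMod p) * (φ k.1 * ψ k.2) = 0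
  rw [Fintype.sum_prod_type]
  have e : ∀ (k : C.I) (l : E.I), (((((if j = l then C.M i k else 0) +
      (if i = k then (-1) ^ C.deg i * E.M j l else 0) : ℤ)) : ℤ) : ZMod p) * (φ k * ψ l) =
      (if j = l then (((C.M i k : ℤ) : ZMod p) * φ k) * ψ l else 0) +
      (if i = k then ((-1) ^ C.deg i * φ k) * (((E.M j l : ℤ) : ZMod p) * ψ l) else 0) := by
    intro k l
    push_cast
    split_ifs <;> ring
  simp only [e, Finset.sum_add_distrib]
  have s1 : ∑ k : C.I, ∑ l : E.I, (if j = l then (((C.M i k : ℤ) : ZMod p) * φ k) * ψ l else 0) = 0 := by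
    simp only [Finset.sum_ite_eq, Finset.mem_univ, if_true]
    rw [← Finset.sum_mul, h1 i, zero_mul]
  have s2 : ∑ k : C.I, ∑ l : E.I,
      (if i = k then ((-1) ^ C.deg i * φ k) * (((E.M j l : ℤ) : ZMod p) * ψ l) else 0) = 0 := by
    rw [Finset.sum_comm]
    simp only [Finset.sum_ite_eq, Finset.mem_univ, if_true]
    rw [← Finset.mul_sum, h2 j, mul_zero]
  rw [s1, s2, add_zero]

/-- the boundary of a product -/
theorem bd_tp {C E : ZC} (x : C.I → ℤ) (y : E.I → ℤ) (k : ℕ) (hx : ∀ i, C.deg i ≠ k → x i = 0) :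
    (tp x y) ᵥ* (C.prod E).M = fun i => tp (x ᵥ* C.M) y i + (-1) ^ k * tp x (y ᵥ* E.M) i := by
  funext ⟨i, j⟩
  change ∑ k : C.I × E.I, (x k.1 * y k.2) * ((if k.2 = j then C.M k.1 i else 0) +
    (if k.1 = i then (-1) ^ C.deg k.1 * E.M k.2 j else 0)) =
    (∑ k, x k * C.M k i) * y j + (-1) ^ k * (x i * ∑ l, y l * E.M l j)
  rw [Fintype.sum_prod_type]
  have e : ∀ (k : C.I) (l : E.I), (x k * y l) * ((if l = j then C.M k i else 0) +
      (if k = i then (-1) ^ C.deg k * E.M l j else 0)) =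
      (if l = j then (x k * C.M k i) * y l else 0) +
      (if k = i then ((-1) ^ C.deg k * x k) * (y l * E.M l j) else 0) := by
    intro k l
    split_ifs <;> ring
  simp only [e, Finset.sum_add_distrib]
  have s1 : ∑ k : C.I, ∑ l : E.I, (if l = j then (x k * C.M k i) * y l else 0) = (∑ k, x k * C.M k i) * y j := by
    simp only [Finset.sum_ite_eq', Finset.mem_univ, if_true]
    rw [← Finset.sum_mul]
  have s2 : ∑ k : C.I, ∑ l : E.I, (if k = i then ((-1) ^ C.deg k * x k) * (y l * E.M l j) else 0) =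
      (-1) ^ k * (x i * ∑ l, y l * E.M l j) := by
    rw [Finset.sum_comm]
    simp only [Finset.sum_ite_eq', Finset.mem_univ, if_true]
    rw [← Finset.mul_sum]
    by_cases h : C.deg i = k
    · rw [h, mul_assoc]
    · rw [hx i h]
      ring
  rw [s1, s2]

theorem tp_deg {C E : ZC} {R : Type} [Ring R] {x : C.I → R} {y : E.I → R} {a b : ℕ}
    (hx : ∀ i, C.deg i ≠ a → x i = 0) (hy : ∀ i, E.deg i ≠ b → y i = 0) :
    ∀ i, (C.prod E).deg i ≠ a + b → tp x y i = 0 := by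
  rintro ⟨i, j⟩ h
  change C.deg i + E.deg j ≠ a + b at h
  change x i * y j = 0
  by_cases h1 : C.deg i = a
  · rw [hy j (by omega), mul_zero]
  · rw [hx i h1, zero_mul]

theorem lin_deg {C : ZC} {R : Type} [Ring R] {x y : C.I → R} {a : ℕ} (c d : R)
    (hx : ∀ i, C.deg i ≠ a → x i = 0) (hy : ∀ i, C.deg i ≠ a → y i = 0) :
    ∀ i, C.deg i ≠ a → c * x i + d * y i = 0 := by
  intro i h
  rw [hx i h, hy i h, mul_zero, mul_zero, add_zero]

theorem bez (a b p ε : ℤ) (hε : ε * ε = 1) (ha : a ≠ 0) (hpa : p ∣ a) (hpb : p ∣ b) :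
    ∃ g a' b' u v : ℤ, g ≠ 0 ∧ p ∣ g ∧ a = g * a' ∧ b = g * b' ∧ a' * u + ε * (b' * v) = 1 := by
  obtain ⟨a', h1⟩ := Int.gcd_dvd_left a b
  obtain ⟨b', h2⟩ := Int.gcd_dvd_right a b
  have hg : ((Int.gcd a b : ℕ) : ℤ) ≠ 0 := by
    intro h
    rw [h, zero_mul] at h1
    exact ha h1
  refine ⟨(Int.gcd a b : ℕ), a', b', Int.gcdA a b, ε * Int.gcdB a b, hg, Int.dvd_coe_gcd hpa hpb, h1, h2, ?_⟩
  have h3 := Int.gcd_eq_gcd_ab a b
  have h4 : ((Int.gcd a b : ℕ) : ℤ) * (a' * Int.gcdA a b + ε * (b' * (ε * Int.gcdB a b))) =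
      ((Int.gcd a b : ℕ) : ℤ) * 1 := by
    have h5 : ((Int.gcd a b : ℕ) : ℤ) * (a' * Int.gcdA a b + ε * (b' * (ε * Int.gcdB a b))) =
        (((Int.gcd a b : ℕ) : ℤ) * a') * Int.gcdA a b + (ε * ε) * ((((Int.gcd a b : ℕ) : ℤ) * b') * Int.gcdB a b) := by
      ring
    rw [h5, ← h1, ← h2, hε, one_mul, mul_one, ← h3]
  exact mul_left_cancel₀ hg h4

/-- a datum with another index set -/
theorem mk' {C : ZC} {p n t : ℕ} {κ : Type} [DecidableEq κ] (e : Fin t ≃ κ) (x y : κ → C.I → ℤ) (a : κ → ℤ)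
    (φ ψ : κ → C.I → ZMod p) (x_deg : ∀ k i, C.deg i ≠ n + 1 → x k i = 0)
    (y_deg : ∀ k i, C.deg i ≠ n → y k i = 0) (φ_deg : ∀ k i, C.deg i ≠ n → φ k i = 0)
    (ψ_deg : ∀ k i, C.deg i ≠ n + 1 → ψ k i = 0) (bd : ∀ k, x k ᵥ* C.M = a k • y k) (a_ne : ∀ k, a k ≠ 0)
    (a_dvd : ∀ k, (p : ℤ) ∣ a k) (φy : ∀ k l, pr (φ k) (y l) = if k = l then 1 else 0)
    (ψx : ∀ k l, pr (ψ k) (x l) = if k = l then 1 else 0) (φ_cyc : ∀ k, Coc C p (φ k))
    (ψ_cyc : ∀ k, Coc C p (ψ k)) : Nonempty (Bock C p n t) :=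
  ⟨{ x := fun k => x (e k)
     y := fun k => y (e k)
     a := fun k => a (e k)
     φ := fun k => φ (e k)
     ψ := fun k => ψ (e k)
     x_deg := fun k => x_deg (e k)
     y_deg := fun k => y_deg (e k)
     φ_deg := fun k => φ_deg (e k)
     ψ_deg := fun k => ψ_deg (e k)
     bd := fun k => bd (e k)
     a_ne := fun k => a_ne (e k)
     a_dvd := fun k => a_dvd (e k)
     φy := fun k l => by
      have := φy (e k) (e l)
      simp only [e.injective.eq_iff] at this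
      exact this
     ψx := fun k l => by
      have := ψx (e k) (e l)
      simp only [e.injective.eq_iff] at this
      exact this
     φ_cyc := fun k => φ_cyc (e k)
     ψ_cyc := fun k => ψ_cyc (e k) }⟩

theorem y_cyc {C : ZC} {p n t : ℕ} (B : Bock C p n t) (k : Fin t) : B.y k ᵥ* C.M = 0 := by
  have h1 : B.a k • (B.y k ᵥ* C.M) = 0 := by
    rw [← Matrix.smul_vecMul, ← B.bd k, Matrix.vecMul_vecMul, C.M_sq, Matrix.vecMul_zero]
  exact (smul_eq_zero.1 h1).resolve_left (B.a_ne k)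

theorem delta {s t : ℕ} {R : Type} [Ring R] (k l : Fin s × Fin t) :
    ((if k.1 = l.1 then 1 else 0 : R) * (if k.2 = l.2 then 1 else 0)) = if k = l then 1 else 0 := by
  rcases k with ⟨a, b⟩
  rcases l with ⟨c, d⟩
  by_cases h1 : a = c <;> by_cases h2 : b = d <;> simp [h1, h2]

theorem main : S_PAIR := by
  intro C E p _ m n s t ⟨B⟩ ⟨B'⟩
  have hε : ((-1 : ℤ) ^ m) * (-1) ^ m = 1 := by rw [← mul_pow]; simp
  choose g a b u v hg hpg ha hb huv using fun k : Fin s × Fin t =>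
    bez (B.a k.1) (B'.a k.2) p ((-1) ^ m) hε (B.a_ne _) (B.a_dvd _) (B'.a_dvd _)
  -- pairings
  have pφy : ∀ k l, pr (B.φ k) (B.y l) = if k = l then 1 else 0 := B.φy
  have pψx : ∀ k l, pr (B.ψ k) (B.x l) = if k = l then 1 else 0 := B.ψx
  have pφy' : ∀ k l, pr (B'.φ k) (B'.y l) = if k = l then 1 else 0 := B'.φy
  have pψx' : ∀ k l, pr (B'.ψ k) (B'.x l) = if k = l then 1 else 0 := B'.ψx
  have pφx : ∀ k l, pr (B.φ k) (B.x l) = 0 := fun k l =>
    pr_zero _ _ C.deg m (m + 1) (by omega) (B.φ_deg k) (B.x_deg l)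
  have pψy : ∀ k l, pr (B.ψ k) (B.y l) = 0 := fun k l =>
    pr_zero _ _ C.deg (m + 1) m (by omega) (B.ψ_deg k) (B.y_deg l)
  have pφx' : ∀ k l, pr (B'.φ k) (B'.x l) = 0 := fun k l =>
    pr_zero _ _ E.deg n (n + 1) (by omega) (B'.φ_deg k) (B'.x_deg l)
  have pψy' : ∀ k l, pr (B'.ψ k) (B'.y l) = 0 := fun k l =>
    pr_zero _ _ E.deg (n + 1) n (by omega) (B'.ψ_deg k) (B'.y_deg l)
  have huv' : ∀ k, (((a k : ℤ) : ZMod p) * ((u k : ℤ) : ZMod p) +
      (-1) ^ m * (((b k : ℤ) : ZMod p) * ((v k : ℤ) : ZMod p))) = 1 := by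
    intro k
    have := congrArg (Int.cast : ℤ → ZMod p) (huv k)
    push_cast at this
    exact this
  constructor
  · refine mk' (finProdFinEquiv (m := s) (n := t)).symm
      (fun k i => u k * tp (B.x k.1) (B'.y k.2) i + v k * tp (B.y k.1) (B'.x k.2) i)
      (fun k => tp (B.y k.1) (B'.y k.2)) g (fun k => tp (B.φ k.1) (B'.φ k.2))
      (fun k i => ((a k : ℤ) : ZMod p) * tp (B.ψ k.1) (B'.φ k.2) i +
        ((-1) ^ m * ((b k : ℤ) : ZMod p)) * tp (B.φ k.1) (B'.ψ k.2) i)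
      ?_ ?_ ?_ ?_ ?_ hg hpg ?_ ?_ ?_ ?_
    · intro k i hi
      refine lin_deg (C := C.prod E) (a := m + n + 1) (u k) (v k) ?_ ?_ i hi
      · intro i hi
        exact tp_deg (B.x_deg k.1) (B'.y_deg k.2) i (by omega)
      · intro i hi
        exact tp_deg (B.y_deg k.1) (B'.x_deg k.2) i (by omega)
    · intro k i hi
      exact tp_deg (B.y_deg k.1) (B'.y_deg k.2) i hi
    · intro k i hi
      exact tp_deg (B.φ_deg k.1) (B'.φ_deg k.2) i hi
    · intro k i hi
      refine lin_deg (C := C.prod E) (a := m + n + 1) _ _ ?_ ?_ i hi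
      · intro i hi
        exact tp_deg (B.ψ_deg k.1) (B'.φ_deg k.2) i (by omega)
      · intro i hi
        exact tp_deg (B.φ_deg k.1) (B'.ψ_deg k.2) i (by omega)
    · intro k
      have h1 : (fun i => u k * tp (B.x k.1) (B'.y k.2) i + v k * tp (B.y k.1) (B'.x k.2) i :
          (C.prod E).I → ℤ) = u k • (tp (B.x k.1) (B'.y k.2) : (C.prod E).I → ℤ) +
            v k • (tp (B.y k.1) (B'.x k.2) : (C.prod E).I → ℤ) := rfl
      rw [h1, Matrix.add_vecMul, Matrix.smul_vecMul, Matrix.smul_vecMul, bd_tp _ _ (m + 1) (B.x_deg k.1),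
        bd_tp _ _ m (B.y_deg k.1), y_cyc, y_cyc, B.bd, B'.bd]
      funext i
      simp only [Pi.add_apply, Pi.smul_apply, smul_eq_mul, tp, Pi.zero_apply, mul_zero, add_zero, zero_mul, zero_add]
      rw [ha k, hb k]
      have := huv k
      linear_combination (g k * (B.y k.1 i.1 * B'.y k.2 i.2)) * this
    · intro k l
      rw [pr_tp, pφy, pφy', delta]
    · intro k l
      rw [pr_lin, pr_lin', pr_lin', pr_tp, pr_tp, pr_tp, pr_tp, pψx, pφy', pψy, pφx, pφy, pψx', zero_mul, zero_mul,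
        delta]
      by_cases h : k = l
      · subst h
        rw [if_pos rfl]
        linear_combination huv' k
      · rw [if_neg h]
        ring
    · intro k
      exact Coc.tp (B.φ_cyc k.1) (B'.φ_cyc k.2)
    · intro k
      exact Coc.lin (Coc.tp (B.ψ_cyc k.1) (B'.φ_cyc k.2)) (Coc.tp (B.φ_cyc k.1) (B'.ψ_cyc k.2)) _ _
  · refine mk' (finProdFinEquiv (m := s) (n := t)).symm
      (fun k => tp (B.x k.1) (B'.x k.2))
      (fun k i => a k * tp (B.y k.1) (B'.x k.2) i + ((-1) ^ (m + 1) * b k) * tp (B.x k.1) (B'.y k.2) i) g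
      (fun k i => ((u k : ℤ) : ZMod p) * tp (B.φ k.1) (B'.ψ k.2) i +
        (-((v k : ℤ) : ZMod p)) * tp (B.ψ k.1) (B'.φ k.2) i)
      (fun k => tp (B.ψ k.1) (B'.ψ k.2))
      ?_ ?_ ?_ ?_ ?_ hg hpg ?_ ?_ ?_ ?_
    · intro k i hi
      exact tp_deg (B.x_deg k.1) (B'.x_deg k.2) i (by omega)
    · intro k i hi
      refine lin_deg (C := C.prod E) (a := m + n + 1) _ _ ?_ ?_ i hi
      · intro i hi
        exact tp_deg (B.y_deg k.1) (B'.x_deg k.2) i (by omega)
      · intro i hi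
        exact tp_deg (B.x_deg k.1) (B'.y_deg k.2) i (by omega)
    · intro k i hi
      refine lin_deg (C := C.prod E) (a := m + n + 1) _ _ ?_ ?_ i hi
      · intro i hi
        exact tp_deg (B.φ_deg k.1) (B'.ψ_deg k.2) i (by omega)
      · intro i hi
        exact tp_deg (B.ψ_deg k.1) (B'.φ_deg k.2) i (by omega)
    · intro k i hi
      exact tp_deg (B.ψ_deg k.1) (B'.ψ_deg k.2) i (by omega)
    · intro k
      rw [bd_tp _ _ (m + 1) (B.x_deg k.1), B.bd, B'.bd]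
      funext i
      simp only [Pi.smul_apply, smul_eq_mul, tp]
      rw [ha k, hb k]
      ring
    · intro k l
      rw [pr_lin, pr_lin', pr_lin', pr_tp, pr_tp, pr_tp, pr_tp, pψx, pφy', pψy, pφx, pφy, pψx', pφx', pψy']
      simp only [mul_zero, add_zero, zero_add]
      rw [delta]
      by_cases h : k = l
      · subst h
        rw [if_pos rfl]
        push_cast
        linear_combination huv' k
      · rw [if_neg h]
        ring
    · intro k l
      rw [pr_tp, pψx, pψx', delta]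
    · intro k
      exact Coc.lin (Coc.tp (B.φ_cyc k.1) (B'.ψ_cyc k.2)) (Coc.tp (B.ψ_cyc k.1) (B'.φ_cyc k.2)) _ _
    · intro k
      exact Coc.tp (B.ψ_cyc k.1) (B'.ψ_cyc k.2)

end Run7.h606.LT.PAIR
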