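import Pool.Agent.Run7.h636.LT.Iface

/-!
# Piece TRZ1 of the project LT (helper606)

The integer complex of a finite based free complex over a finite group.
-/

set_option autoImplicit false

open scoped Matrix

noncomputable section

namespace Run7.h606.LT.TRZ1

open Module Run7.h636.LT Pool.Agent.N496.LT Pool.Agent.Helper993.Delta

theorem coeff_mul_sum {Q : Type} [Group Q] [Fintype Q] (a b : MonoidAlgebra ℤ Q) (g h : Q) :
    (a * b).coeff (g⁻¹ * h) = ∑ x, a.coeff (g⁻¹ * x) * b.coeff (x⁻¹ * h) := by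
  classical
  induction a using MonoidAlgebra.induction_linear with
  | zero => simp
  | add a a' h1 h2 => simp [add_mul, h1, h2, Finset.sum_add_distrib]
  | single y r =>
    rw [MonoidAlgebra.coeff_single_mul_apply, Finset.sum_eq_single (g * y)]
    · simp [mul_assoc]
    · intro x _ hx
      rw [MonoidAlgebra.coeff_single, Finsupp.single_apply, if_neg, zero_mul]
      rintro rfl
      exact hx (by group)
    · simp

theorem coeff_mul_sum' {Q : Type} [Group Q] [Fintype Q] (a b : MonoidAlgebra ℤ Q) (h : Q) :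
    (a * b).coeff h = ∑ x, a.coeff x * b.coeff (x⁻¹ * h) := by
  have := coeff_mul_sum a b 1 h
  simpa using this

theorem coeff_fsum {Q J : Type} [Group Q] (s : Finset J) (f : J → MonoidAlgebra ℤ Q) (h : Q) :
    (∑ j ∈ s, f j).coeff h = ∑ j ∈ s, (f j).coeff h := by
  rw [MonoidAlgebra.coeff_sum, Finsupp.finsetSum_apply]

/-- the order of the torsion is invariant under isomorphisms -/
theorem torsionCard_congr {M M' : Type} [AddCommGroup M] [AddCommGroup M'] (e : M ≃ₗ[ℤ] M') (Z B : Submodule ℤ M)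
    (Z' B' : Submodule ℤ M') (hZ : ∀ v, e v ∈ Z' ↔ v ∈ Z) (hB : ∀ v, e v ∈ B' ↔ v ∈ B) :
    torsionCard Z B = torsionCard Z' B' := by
  have hZ' : Z.map (e : M →ₗ[ℤ] M') = Z' := by
    ext w
    constructor
    · rintro ⟨v, hv, rfl⟩
      exact (hZ v).2 hv
    · intro hw
      refine ⟨e.symm w, (hZ _).1 (by rwa [e.apply_symm_apply]), e.apply_symm_apply w⟩
  let f : Z ≃ₗ[ℤ] Z' := (e.submoduleMap Z).trans (LinearEquiv.ofEq _ _ hZ')
  have hf : ∀ v : Z, ((f v : Z') : M') = e v := fun v => rfl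
  have hq : (B.submoduleOf Z).map (f : Z →ₗ[ℤ] Z') = B'.submoduleOf Z' := by
    ext w
    constructor
    · rintro ⟨v, hv, rfl⟩
      show ((f v : Z') : M') ∈ B'
      rw [hf]
      exact (hB _).2 hv
    · intro hw
      refine ⟨f.symm w, ?_, f.apply_symm_apply w⟩
      show ((f.symm w : Z) : M) ∈ B
      rw [← hB, ← hf, f.apply_symm_apply]
      exact hw
  let q : (Z ⧸ B.submoduleOf Z) ≃ₗ[ℤ] (Z' ⧸ B'.submoduleOf Z') := Submodule.Quotient.equiv _ _ f hq
  unfold torsionCard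
  refine Nat.card_congr (Equiv.subtypeEquiv q.toEquiv fun a => ?_)
  rw [Submodule.mem_torsion_iff, Submodule.mem_torsion_iff]
  constructor
  · rintro ⟨c, hc⟩
    refine ⟨c, ?_⟩
    have h1 := congrArg q hc
    rw [map_zero] at h1
    rw [← h1]
    exact (q.map_smul (c : ℤ) a).symm
  · rintro ⟨c, hc⟩
    refine ⟨c, q.injective ?_⟩
    rw [map_zero, ← hc]
    exact q.map_smul (c : ℤ) a

variable {Q : Type} [Group Q] [Fintype Q]

theorem mat_sq (C : GCx Q) :
    (Matrix.of fun x y : C.ι × Q => (C.D x.1 y.1).coeff (x.2⁻¹ * y.2)) *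
      (Matrix.of fun x y : C.ι × Q => (C.D x.1 y.1).coeff (x.2⁻¹ * y.2)) = 0 := by
  ext ⟨i, g⟩ ⟨j, h⟩
  rw [Matrix.mul_apply, Fintype.sum_prod_type]
  simp only [Matrix.of_apply, Matrix.zero_apply]
  have h1 : ∀ k : C.ι, ∑ x : Q, (C.D i k).coeff (g⁻¹ * x) * (C.D k j).coeff (x⁻¹ * h) =
      (C.D i k * C.D k j).coeff (g⁻¹ * h) := fun k => (coeff_mul_sum _ _ _ _).symm
  rw [Finset.sum_congr rfl fun k _ => h1 k, ← coeff_fsum]
  have h2 := congrFun (congrFun C.D_sq i) j
  rw [Matrix.mul_apply] at h2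
  rw [h2]
  rfl

theorem exists_rep (C : GCx Q) : ∃ Z : ZC, Rep C Z := by
  classical
  refine ⟨{ I := C.ι × Q
            deg := fun x => C.deg x.1
            M := Matrix.of fun x y : C.ι × Q => (C.D x.1 y.1).coeff (x.2⁻¹ * y.2)
            M_deg := ?_
            M_sq := mat_sq C }, Equiv.refl _, fun _ => rfl, fun _ _ => rfl⟩
  intro x y h
  refine C.D_deg _ _ fun h0 => h ?_
  rw [Matrix.of_apply, h0]
  rfl

section

variable (C : GCx Q) (Z : ZC) (e : C.ι × Q ≃ Z.I)

/-- the coefficients of a chain -/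
def Phi : (C.ι → MonoidAlgebra ℤ Q) ≃ₗ[ℤ] (Z.I → ℤ) where
  toFun v z := (v (e.symm z).1).coeff (e.symm z).2
  map_add' v w := by
    funext z
    rfl
  map_smul' c v := by
    funext z
    rfl
  invFun w i := MonoidAlgebra.ofCoeff (Finsupp.equivFunOnFinite.symm fun g => w (e (i, g)))
  left_inv v := by
    funext i
    refine MonoidAlgebra.coeff_injective ?_
    ext g
    rw [MonoidAlgebra.coeff_ofCoeff]
    simp
  right_inv w := by
    funext z
    simp only [Finsupp.equivFunOnFinite_symm_apply_apply]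
    rw [Prod.mk.eta, e.apply_symm_apply]

theorem Phi_apply (v : C.ι → MonoidAlgebra ℤ Q) (i : C.ι) (g : Q) : Phi C Z e v (e (i, g)) = (v i).coeff g := by
  show (v (e.symm (e (i, g))).1).coeff (e.symm (e (i, g))).2 = _
  rw [e.symm_apply_apply]

variable (hd : ∀ x, Z.deg (e x) = C.deg x.1)
  (hM : ∀ x y, Z.M (e x) (e y) = (C.D x.1 y.1).coeff (x.2⁻¹ * y.2))

include hM in
theorem Phi_vecMul (v : C.ι → MonoidAlgebra ℤ Q) : Phi C Z e (v ᵥ* C.D) = Phi C Z e v ᵥ* Z.M := by
  funext z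
  obtain ⟨⟨j, h⟩, rfl⟩ := e.surjective z
  rw [Phi_apply, Matrix.vecMul, dotProduct, Matrix.vecMul, dotProduct, coeff_fsum, ← e.sum_comp,
    Fintype.sum_prod_type]
  refine Finset.sum_congr rfl fun i _ => ?_
  rw [coeff_mul_sum']
  refine Finset.sum_congr rfl fun g _ => ?_
  rw [Phi_apply, hM]

include hd in
theorem Phi_deg (v : C.ι → MonoidAlgebra ℤ Q) (n : ℕ) :
    (∀ z, Z.deg z ≠ n → Phi C Z e v z = 0) ↔ ∀ i, C.deg i ≠ n → v i = 0 := by
  constructor
  · intro h i hi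
    refine MonoidAlgebra.coeff_injective ?_
    ext g
    rw [← Phi_apply C Z e v i g, h _ (by rw [hd]; exact hi)]
    rfl
  · intro h z hz
    obtain ⟨⟨j, g⟩, rfl⟩ := e.surjective z
    rw [hd] at hz
    rw [Phi_apply, h j hz]
    rfl

include hd hM in
theorem tors_eq (n : ℕ) : C.torsOrder n = Z.tors n := by
  refine torsionCard_congr (Phi C Z e) _ _ _ _ ?_ ?_
  · intro v
    show ((∀ z, Z.deg z ≠ n → Phi C Z e v z = 0) ∧ Phi C Z e v ᵥ* Z.M = 0) ↔
      ((∀ i, C.deg i ≠ n → v i = 0) ∧ v ᵥ* C.D = 0)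
    rw [Phi_deg C Z e hd, ← Phi_vecMul C Z e hM, LinearEquiv.map_eq_zero_iff]
  · intro v
    constructor
    · rintro ⟨u, h1, h2⟩
      refine ⟨(Phi C Z e).symm u, ?_, ?_⟩
      · rw [← Phi_deg C Z e hd, LinearEquiv.apply_symm_apply]
        exact h1
      · refine (Phi C Z e).injective ?_
        rw [Phi_vecMul C Z e hM, LinearEquiv.apply_symm_apply, h2]
    · rintro ⟨u, h1, rfl⟩
      refine ⟨Phi C Z e u, ?_, ?_⟩
      · rw [Phi_deg C Z e hd]
        exact h1
      · rw [Phi_vecMul C Z e hM]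

include hd hM in
theorem rk_eq (F : Type) [Field F] (n : ℕ) : C.rk F n = Z.rk F n := by
  unfold GCx.rk ZC.rk
  let e1 : {x : C.ι × Q // C.deg x.1 = n} ≃ {z : Z.I // Z.deg z = n} :=
    Equiv.subtypeEquiv e fun x => by rw [hd]
  have h1 : (C.mat F).submatrix (fun x : {x : C.ι × Q // C.deg x.1 = n} => x.1) id =
      ((Z.M.map (Int.cast : ℤ → F)).submatrix (fun x : {x : Z.I // Z.deg x = n} => x.1) id).submatrix e1 e := by
    ext x y
    simp only [Matrix.submatrix_apply, id, Matrix.map_apply]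
    show (((C.D x.1.1 y.1).coeff (x.1.2⁻¹ * y.2) : ℤ) : F) = ((Z.M (e x.1) (e y) : ℤ) : F)
    rw [hM]
  rw [h1, Matrix.rank_submatrix]

end

theorem main : S_TRZ1 := by
  intro Q _ _ C
  refine ⟨exists_rep C, ?_⟩
  rintro Z ⟨e, hd, hM⟩
  exact ⟨fun n => tors_eq C Z e hd hM n, fun F _ n => rk_eq C Z e hd hM F n⟩

end Run7.h606.LT.TRZ1
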