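import Pool.Agent.Run7.h636.LT.Iface

/-!
# Piece TRZ2 of the project LT (helper606)

The integer complex of a quotient of a product is the product of the integer complexes of the quotients.
-/

set_option autoImplicit false

open scoped Matrix

noncomputable section

namespace Run7.h606.LT.TRZ2

open Module Run7.h636.LT Pool.Agent.N496.LT Pool.Agent.Helper993.Delta

variable {G H : Type} [Group G] [Group H] (N : Subgroup G) (N' : Subgroup H) [N.Normal] [N'.Normal]

/-- the quotient of a product -/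
def pi : (G × H) ⧸ (N.prod N') →* (G ⧸ N) × (H ⧸ N') :=
  QuotientGroup.lift (N.prod N') (MonoidHom.prodMap (QuotientGroup.mk' N) (QuotientGroup.mk' N')) (by
    rintro ⟨g, h⟩ hgh
    rw [Subgroup.mem_prod] at hgh
    rw [MonoidHom.mem_ker]
    refine Prod.ext ?_ ?_
    · exact (QuotientGroup.eq_one_iff g).2 hgh.1
    · exact (QuotientGroup.eq_one_iff h).2 hgh.2)

theorem pi_mk (g : G) (h : H) : pi N N' (QuotientGroup.mk' (N.prod N') (g, h)) =
    (QuotientGroup.mk' N g, QuotientGroup.mk' N' h) := rfl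

theorem pi_inj : Function.Injective (pi N N') := by
  rw [injective_iff_map_eq_one]
  intro x hx
  obtain ⟨⟨g, h⟩, rfl⟩ := QuotientGroup.mk'_surjective (N.prod N') x
  rw [pi_mk] at hx
  have h1 := (QuotientGroup.eq_one_iff g).1 (congrArg Prod.fst hx)
  have h2 := (QuotientGroup.eq_one_iff h).1 (congrArg Prod.snd hx)
  exact (QuotientGroup.eq_one_iff _).2 (Subgroup.mem_prod.2 ⟨h1, h2⟩)

theorem pi_surj : Function.Surjective (pi N N') := by
  rintro ⟨x, y⟩
  obtain ⟨g, rfl⟩ := QuotientGroup.mk'_surjective N x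
  obtain ⟨h, rfl⟩ := QuotientGroup.mk'_surjective N' y
  exact ⟨QuotientGroup.mk' (N.prod N') (g, h), rfl⟩

/-- the bijection -/
def piE : (G × H) ⧸ (N.prod N') ≃ (G ⧸ N) × (H ⧸ N') := Equiv.ofBijective _ ⟨pi_inj N N', pi_surj N N'⟩

theorem coeff_inl (a : MonoidAlgebra ℤ G) (r : (G × H) ⧸ (N.prod N')) [Decidable ((pi N N' r).2 = 1)] :
    (MonoidAlgebra.mapDomainRingHom ℤ (QuotientGroup.mk' (N.prod N'))
      (MonoidAlgebra.mapDomainRingHom ℤ (MonoidHom.inl G H) a)).coeff r =
    if (pi N N' r).2 = 1 then (MonoidAlgebra.mapDomainRingHom ℤ (QuotientGroup.mk' N) a).coeff (pi N N' r).1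
      else 0 := by
  classical
  induction a using MonoidAlgebra.induction_linear with
  | zero => simp
  | add f g hf hg =>
    rw [map_add, map_add, map_add, MonoidAlgebra.coeff_add, Finsupp.add_apply, hf, hg, MonoidAlgebra.coeff_add,
      Finsupp.add_apply]
    split_ifs <;> simp
  | single g n =>
    rw [MonoidAlgebra.mapDomainRingHom_apply, MonoidAlgebra.mapDomainRingHom_apply,
      MonoidAlgebra.mapDomainRingHom_apply, MonoidAlgebra.mapDomain_single, MonoidAlgebra.mapDomain_single,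
      MonoidAlgebra.mapDomain_single, MonoidAlgebra.coeff_single, MonoidAlgebra.coeff_single, Finsupp.single_apply,
      Finsupp.single_apply]
    have h1 : (QuotientGroup.mk' (N.prod N') ((MonoidHom.inl G H) g) = r) ↔
        ((pi N N' r).2 = 1 ∧ QuotientGroup.mk' N g = (pi N N' r).1) := by
      rw [← (pi_inj N N').eq_iff, MonoidHom.inl_apply, pi_mk, Prod.ext_iff, map_one]
      constructor
      · rintro ⟨h1, h2⟩
        exact ⟨h2.symm, h1⟩
      · rintro ⟨h1, h2⟩
        exact ⟨h2, h1.symm⟩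
    by_cases h2 : (pi N N' r).2 = 1
    · by_cases h3 : QuotientGroup.mk' N g = (pi N N' r).1
      · rw [if_pos (h1.2 ⟨h2, h3⟩), if_pos h2, if_pos h3]
      · rw [if_neg (fun h => h3 (h1.1 h).2), if_pos h2, if_neg h3]
    · rw [if_neg (fun h => h2 (h1.1 h).1), if_neg h2]

theorem coeff_inr (a : MonoidAlgebra ℤ H) (r : (G × H) ⧸ (N.prod N')) [Decidable ((pi N N' r).1 = 1)] :
    (MonoidAlgebra.mapDomainRingHom ℤ (QuotientGroup.mk' (N.prod N'))
      (MonoidAlgebra.mapDomainRingHom ℤ (MonoidHom.inr G H) a)).coeff r =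
    if (pi N N' r).1 = 1 then (MonoidAlgebra.mapDomainRingHom ℤ (QuotientGroup.mk' N') a).coeff (pi N N' r).2
      else 0 := by
  classical
  induction a using MonoidAlgebra.induction_linear with
  | zero => simp
  | add f g hf hg =>
    rw [map_add, map_add, map_add, MonoidAlgebra.coeff_add, Finsupp.add_apply, hf, hg, MonoidAlgebra.coeff_add,
      Finsupp.add_apply]
    split_ifs <;> simp
  | single g n =>
    rw [MonoidAlgebra.mapDomainRingHom_apply, MonoidAlgebra.mapDomainRingHom_apply,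
      MonoidAlgebra.mapDomainRingHom_apply, MonoidAlgebra.mapDomain_single, MonoidAlgebra.mapDomain_single,
      MonoidAlgebra.mapDomain_single, MonoidAlgebra.coeff_single, MonoidAlgebra.coeff_single, Finsupp.single_apply,
      Finsupp.single_apply]
    have h1 : (QuotientGroup.mk' (N.prod N') ((MonoidHom.inr G H) g) = r) ↔
        ((pi N N' r).1 = 1 ∧ QuotientGroup.mk' N' g = (pi N N' r).2) := by
      rw [← (pi_inj N N').eq_iff, MonoidHom.inr_apply, pi_mk, Prod.ext_iff, map_one]
      constructor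
      · rintro ⟨h1, h2⟩
        exact ⟨h1.symm, h2⟩
      · rintro ⟨h1, h2⟩
        exact ⟨h1.symm, h2⟩
    by_cases h2 : (pi N N' r).1 = 1
    · by_cases h3 : QuotientGroup.mk' N' g = (pi N N' r).2
      · rw [if_pos (h1.2 ⟨h2, h3⟩), if_pos h2, if_pos h3]
      · rw [if_neg (fun h => h3 (h1.1 h).2), if_pos h2, if_neg h3]
    · rw [if_neg (fun h => h2 (h1.1 h).1), if_neg h2]

theorem coeff_sign {Q : Type} [Group Q] (k : ℕ) (a : MonoidAlgebra ℤ Q) (r : Q) :
    ((-1) ^ k * a).coeff r = (-1) ^ k * a.coeff r := by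
  rcases Nat.even_or_odd k with h | h
  · rw [h.neg_one_pow, h.neg_one_pow, one_mul, one_mul]
  · rw [h.neg_one_pow, h.neg_one_pow, neg_one_mul, neg_one_mul]
    rfl

theorem main : S_TRZ2 := by
  classical
  intro G H _ _ C E N N' _ _ Z Z'
  rintro ⟨e, hd, hM⟩ ⟨e', hd', hM'⟩
  let f : ((C.prod E).quot (N.prod N')).ι × ((G × H) ⧸ (N.prod N')) ≃ (Z.prod Z').I :=
    { toFun := fun x => (e (x.1.1, (pi N N' x.2).1), e' (x.1.2, (pi N N' x.2).2))
      invFun := fun z => (((e.symm z.1).1, (e'.symm z.2).1), (piE N N').symm ((e.symm z.1).2, (e'.symm z.2).2))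
      left_inv := by
        rintro ⟨⟨i, j⟩, r⟩
        simp only [Equiv.symm_apply_apply]
        refine Prod.ext rfl ?_
        show (piE N N').symm (pi N N' r) = r
        exact (piE N N').symm_apply_apply r
      right_inv := by
        rintro ⟨z, z'⟩
        have h1 : pi N N' ((piE N N').symm ((e.symm z).2, (e'.symm z').2)) = ((e.symm z).2, (e'.symm z').2) :=
          (piE N N').apply_symm_apply _
        simp only [h1]
        refine Prod.ext ?_ ?_
        · exact e.apply_symm_apply z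
        · exact e'.apply_symm_apply z' }
  refine ⟨f, ?_, ?_⟩
  · rintro ⟨⟨i, j⟩, r⟩
    show Z.deg (e (i, (pi N N' r).1)) + Z'.deg (e' (j, (pi N N' r).2)) = C.deg i + E.deg j
    rw [hd, hd']
    rfl
  · rintro ⟨⟨i, j⟩, q⟩ ⟨⟨i', j'⟩, q'⟩
    show (if e' (j, (pi N N' q).2) = e' (j', (pi N N' q').2) then
        Z.M (e (i, (pi N N' q).1)) (e (i', (pi N N' q').1)) else 0) +
      (if e (i, (pi N N' q).1) = e (i', (pi N N' q').1) then
        (-1) ^ Z.deg (e (i, (pi N N' q).1)) * Z'.M (e' (j, (pi N N' q).2)) (e' (j', (pi N N' q').2)) else 0) =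
      (MonoidAlgebra.mapDomainRingHom ℤ (QuotientGroup.mk' (N.prod N'))
        ((if j = j' then MonoidAlgebra.mapDomainRingHom ℤ (MonoidHom.inl G H) (C.D i i') else 0) +
          (if i = i' then (-1) ^ C.deg i * MonoidAlgebra.mapDomainRingHom ℤ (MonoidHom.inr G H) (E.D j j')
            else 0))).coeff (q⁻¹ * q')
    have hq : pi N N' (q⁻¹ * q') = ((pi N N' q).1⁻¹ * (pi N N' q').1, (pi N N' q).2⁻¹ * (pi N N' q').2) := by
      rw [map_mul, map_inv]
      rfl
    have hM1 : Z.M (e (i, (pi N N' q).1)) (e (i', (pi N N' q').1)) =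
        (MonoidAlgebra.mapDomainRingHom ℤ (QuotientGroup.mk' N) (C.D i i')).coeff
          ((pi N N' q).1⁻¹ * (pi N N' q').1) := hM _ _
    have hM2 : Z'.M (e' (j, (pi N N' q).2)) (e' (j', (pi N N' q').2)) =
        (MonoidAlgebra.mapDomainRingHom ℤ (QuotientGroup.mk' N') (E.D j j')).coeff
          ((pi N N' q).2⁻¹ * (pi N N' q').2) := hM' _ _
    have hd1 : Z.deg (e (i, (pi N N' q).1)) = C.deg i := hd _
    rw [map_add, MonoidAlgebra.coeff_add, Finsupp.add_apply, hM1, hM2, hd1]
    refine congrArg₂ (· + ·) ?_ ?_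
    · have h0 : e' (j, (pi N N' q).2) = e' (j', (pi N N' q').2) ↔ (j = j' ∧ (pi N N' q).2 = (pi N N' q').2) := by
        rw [e'.injective.eq_iff]
        exact Prod.ext_iff
      by_cases h1 : j = j'
      · rw [if_pos h1, coeff_inl]
        by_cases h2 : (pi N N' q).2 = (pi N N' q').2
        · rw [if_pos (h0.2 ⟨h1, h2⟩), if_pos (by rw [hq]; exact inv_mul_eq_one.2 h2), hq]
        · rw [if_neg (fun h => h2 (h0.1 h).2), if_neg]
          rw [hq]
          exact fun h => h2 (inv_mul_eq_one.1 h)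
      · rw [if_neg h1, if_neg (fun h => h1 (h0.1 h).1), map_zero]
        rfl
    · have h0 : e (i, (pi N N' q).1) = e (i', (pi N N' q').1) ↔ (i = i' ∧ (pi N N' q).1 = (pi N N' q').1) := by
        rw [e.injective.eq_iff]
        exact Prod.ext_iff
      by_cases h1 : i = i'
      · have h3 : MonoidAlgebra.mapDomainRingHom ℤ (QuotientGroup.mk' (N.prod N'))
            ((-1) ^ C.deg i * MonoidAlgebra.mapDomainRingHom ℤ (MonoidHom.inr G H) (E.D j j')) =
            (-1) ^ C.deg i * MonoidAlgebra.mapDomainRingHom ℤ (QuotientGroup.mk' (N.prod N'))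
              (MonoidAlgebra.mapDomainRingHom ℤ (MonoidHom.inr G H) (E.D j j')) := by
          rw [map_mul, map_pow, map_neg, map_one]
        rw [if_pos h1, h3, coeff_sign, coeff_inr]
        by_cases h2 : (pi N N' q).1 = (pi N N' q').1
        · rw [if_pos (h0.2 ⟨h1, h2⟩), if_pos (by rw [hq]; exact inv_mul_eq_one.2 h2), hq]
        · rw [if_neg (fun h => h2 (h0.1 h).2), if_neg, mul_zero]
          rw [hq]
          exact fun h => h2 (inv_mul_eq_one.1 h)
      · rw [if_neg h1, if_neg (fun h => h1 (h0.1 h).1), map_zero]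
        rfl

end Run7.h606.LT.TRZ2
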